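import Pool.Agent.MP_1037db_co.Q.S4
import Pool.Agent.MP_1037db_co.Q.G.S1C0
import Pool.Agent.MP_1037db_co.Q.G.S3C0
import Pool.Agent.MP_1037db_co.Q.G.S3C1
import Pool.Agent.MP_1037db_co.Q.G.S3C2
import Pool.Agent.MP_1037db_co.Q.G.S10C0
import Pool.Agent.MP_1037db_co.Q.G.S10C1
import Pool.Agent.MP_1037db_co.Q.G.S10C2
import Pool.Agent.MP_1037db_co.Q.G.S10C3
import Pool.Agent.MP_1037db_co.Q.G.S10C4
import Pool.Agent.MP_1037db_co.Q.G.S10C5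
import Pool.Agent.MP_1037db_co.Q.G.S10C6
import Pool.Agent.MP_1037db_co.Q.G.S10C7
import Pool.Agent.MP_1037db_co.Q.G.S10C8
import Pool.Agent.MP_1037db_co.Q.G.S10C9
import Pool.Agent.MP_1037db_co.Q.G.S10C10
import Pool.Agent.MP_1037db_co.Q.G.S10C11

namespace Pool.Agent.MP_1037db_co.Q.G

open LP PT.Kg

set_option linter.defProp false
set_option maxRecDepth 100000

noncomputable section

theorem tab1 : tab FA FB D1 R1 5 = true := by decide +kernel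

theorem seg1 : Seg ⟨FA, FB, FT, 75135, 10069, 42299, geo_ok⟩ 10069 8999 0 2200 := fun _ E β ht h hb h' => by
  letI : Geo := ⟨FA, FB, FT, 75135, 10069, 42299, geo_ok⟩
  have c : rd R1 35 = 8999 := by decide +kernel
  have g := tc_re (E := E) tab1 (ro := 10069) (C0 := 8999) (by decide +kernel) ht hb
  have s : St (E.re tab1) β 8999 H1_0 (0 * 32) _ X1_0 _ _ _ _ _ _ :=
    g.start H1_0 8999 0 (by decide +kernel) h h'
  have s : St _ β _ _ (128 * 32) _ _ _ _ _ _ _ _ := s.ru g okX1_0 p1_0_0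
  have s : St _ β _ _ (203 * 32) _ _ _ _ _ _ _ _ := s.ru g okX1_0 p1_1_0
  have s : St _ β _ _ (203 * 32) _ _ _ _ _ _ _ _ := s.rnz (i := 6496) g r1_1_13 ⟨by norm_num, c⟩
  have s : St _ β _ _ (203 * 32) _ _ _ _ _ _ _ _ := s.rnz (i := 6496) g r1_1_14 ⟨by norm_num, c⟩
  have s : St _ β _ _ (203 * 32) _ _ _ _ _ _ _ _ := s.rnz (i := 6496) g r1_2_0 ⟨by norm_num, c⟩
  have s : St _ β _ _ (203 * 32) _ _ _ _ _ _ _ _ := s.rnz (i := 6496) g r1_2_1 ⟨by norm_num, c⟩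
  have s : St _ β _ _ (203 * 32) _ _ _ _ _ _ _ _ := s.rnz (i := 6496) g r1_2_2 ⟨by norm_num, c⟩
  have s : St _ β _ _ (203 * 32) _ _ _ _ _ _ _ _ := s.rnz (i := 6496) g r1_2_3 ⟨by norm_num, c⟩
  have s : St _ β _ _ (203 * 32) _ _ _ _ _ _ _ _ := s.rnz (i := 6496) g r1_2_4 ⟨by norm_num, c⟩
  have s : St _ β _ _ (203 * 32) _ _ _ _ _ _ _ _ := s.rnz (i := 6496) g r1_2_5 ⟨by norm_num, c⟩
  have s : St _ β _ _ (203 * 32) _ _ _ _ _ _ _ _ := s.rnz (i := 6496) g r1_2_6 ⟨by norm_num, c⟩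
  have s : St _ β _ _ (203 * 32) _ _ _ _ _ _ _ _ := s.rnz (i := 6496) g r1_3_0 ⟨by norm_num, c⟩
  have s : St _ β _ _ (203 * 32) _ _ _ _ _ _ _ _ := s.rnz (i := 6496) g r1_3_1 ⟨by norm_num, c⟩
  have s : St _ β _ _ (203 * 32) _ _ _ _ _ _ _ _ := s.rnz (i := 6496) g r1_3_2 ⟨by norm_num, c⟩
  have s : St _ β _ _ (203 * 32) _ _ _ _ _ _ _ _ := s.rnz (i := 6496) g r1_3_3 ⟨by norm_num, c⟩
  have s : St _ β _ _ (203 * 32) _ _ _ _ _ _ _ _ := s.rnz (i := 6496) g r1_3_4 ⟨by norm_num, c⟩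
  have s : St _ β _ _ (203 * 32) _ _ _ _ _ _ _ _ := s.rnz (i := 6496) g r1_3_5 ⟨by norm_num, c⟩
  have s : St _ β _ _ (203 * 32) _ _ _ _ _ _ _ _ := s.rnz (i := 6496) g r1_3_6 ⟨by norm_num, c⟩
  have s : St _ β _ _ (203 * 32) _ _ _ _ _ _ _ _ := s.rnz (i := 6496) g r1_4_0 ⟨by norm_num, c⟩
  have s : St _ β _ _ (203 * 32) _ _ _ _ _ _ _ _ := s.rnz (i := 6496) g r1_4_1 ⟨by norm_num, c⟩
  have s : St _ β _ _ (203 * 32) _ _ _ _ _ _ _ _ := s.rnz (i := 6496) g r1_4_2 ⟨by norm_num, c⟩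
  exact s.out g (by decide +kernel)

theorem tab3 : tab FA FB D3 R3 9 = true := by decide +kernel

theorem seg3 : Seg ⟨FA, FB, FT, 75135, 10069, 42299, geo_ok⟩ 10069 8999 2200 3200 := fun _ E β ht h hb h' => by
  letI : Geo := ⟨FA, FB, FT, 75135, 10069, 42299, geo_ok⟩
  have c : rd R3 35 = 8999 := by decide +kernel
  have g := tc_re (E := E) tab3 (ro := 10069) (C0 := 8999) (by decide +kernel) ht hb
  have s : St (E.re tab3) β 8999 H3_0 (0 * 32) _ X3_0 _ _ _ _ _ _ :=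
    g.start H3_0 8999 1 (by decide +kernel) h h'
  have s : St _ β _ _ (149 * 32) _ _ _ _ _ _ _ _ := s.ru g okX3_0 p3_0_0
  have s : St _ β _ _ (259 * 32) _ _ _ _ _ _ _ _ := s.ru g okX3_0 p3_1_0
  have s : St _ β _ _ (358 * 32) _ _ _ _ _ _ _ _ := s.ru g okX3_0 p3_2_0
  have s : St _ β _ _ (432 * 32) _ _ _ _ _ _ _ _ := s.ru g okX3_0 p3_3_0
  have s : St _ β _ _ (493 * 32) _ _ _ _ _ _ _ _ := s.ru g okX3_0 p3_4_0
  have s : St _ β _ _ (539 * 32) _ _ _ _ _ _ _ _ := s.ru g okX3_0 p3_5_0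
  have s : St _ β _ _ (587 * 32) _ _ _ _ _ _ _ _ := s.ru g okX3_0 p3_6_0
  have s : St _ β _ _ (598 * 32) _ _ _ _ _ _ _ _ := s.ru g okX3_0 p3_7_0
  have s : St _ β _ _ (598 * 32) _ _ _ _ _ _ _ _ := s.rnz (i := 19136) g r3_7_5 ⟨by norm_num, c⟩
  have s : St _ β _ _ (598 * 32) _ _ _ _ _ _ _ _ := s.rnz (i := 19136) g r3_7_6 ⟨by norm_num, c⟩
  have s : St _ β _ _ (598 * 32) _ _ _ _ _ _ _ _ := s.rnz (i := 19136) g r3_7_7 ⟨by norm_num, c⟩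
  have s : St _ β _ _ (598 * 32) _ _ _ _ _ _ _ _ := s.rnz (i := 19136) g r3_7_8 ⟨by norm_num, c⟩
  have s : St _ β _ _ (598 * 32) _ _ _ _ _ _ _ _ := s.rnz (i := 19136) g r3_7_9 ⟨by norm_num, c⟩
  have s : St _ β _ _ (598 * 32) _ _ _ _ _ _ _ _ := s.rnz (i := 19136) g r3_7_10 ⟨by norm_num, c⟩
  have s : St _ β _ _ (598 * 32) _ _ _ _ _ _ _ _ := s.rnz (i := 19136) g r3_8_0 ⟨by norm_num, c⟩
  have s : St _ β _ _ (598 * 32) _ _ _ _ _ _ _ _ := s.rnz (i := 19136) g r3_8_1 ⟨by norm_num, c⟩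
  have s : St _ β _ _ (598 * 32) _ _ _ _ _ _ _ _ := s.rnz (i := 19136) g r3_8_2 ⟨by norm_num, c⟩
  have s : St _ β _ _ (598 * 32) _ _ _ _ _ _ _ _ := s.rnz (i := 19136) g r3_8_3 ⟨by norm_num, c⟩
  have s : St _ β _ _ (598 * 32) _ _ _ _ _ _ _ _ := s.rnz (i := 19136) g r3_8_4 ⟨by norm_num, c⟩
  have s : St _ β _ _ (598 * 32) _ _ _ _ _ _ _ _ := s.rnz (i := 19136) g r3_8_5 ⟨by norm_num, c⟩
  have s : St _ β _ _ (598 * 32) _ _ _ _ _ _ _ _ := s.rnz (i := 19136) g r3_8_6 ⟨by norm_num, c⟩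
  have s : St _ β _ _ (598 * 32) _ _ _ _ _ _ _ _ := s.rnz (i := 19136) g r3_8_7 ⟨by norm_num, c⟩
  have s : St _ β _ _ (598 * 32) _ _ _ _ _ _ _ _ := s.rnz (i := 19136) g r3_9_0 ⟨by norm_num, c⟩
  have s : St _ β _ _ (598 * 32) _ _ _ _ _ _ _ _ := s.rnz (i := 19136) g r3_9_1 ⟨by norm_num, c⟩
  have s : St _ β _ _ (598 * 32) _ _ _ _ _ _ _ _ := s.rnz (i := 19136) g r3_9_2 ⟨by norm_num, c⟩
  have s : St _ β _ _ (598 * 32) _ _ _ _ _ _ _ _ := s.rnz (i := 19136) g r3_9_3 ⟨by norm_num, c⟩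
  have s : St _ β _ _ (598 * 32) _ _ _ _ _ _ _ _ := s.rnz (i := 19136) g r3_9_4 ⟨by norm_num, c⟩
  have s : St _ β _ _ (598 * 32) _ _ _ _ _ _ _ _ := s.rnz (i := 19136) g r3_9_5 ⟨by norm_num, c⟩
  have s : St _ β _ _ (598 * 32) _ _ _ _ _ _ _ _ := s.rnz (i := 19136) g r3_9_6 ⟨by norm_num, c⟩
  have s : St _ β _ _ (598 * 32) _ _ _ _ _ _ _ _ := s.rnz (i := 19136) g r3_10_0 ⟨by norm_num, c⟩
  have s : St _ β _ _ (598 * 32) _ _ _ _ _ _ _ _ := s.rnz (i := 19136) g r3_10_1 ⟨by norm_num, c⟩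
  have s : St _ β _ _ (598 * 32) _ _ _ _ _ _ _ _ := s.rnz (i := 19136) g r3_10_2 ⟨by norm_num, c⟩
  have s : St _ β _ _ (598 * 32) _ _ _ _ _ _ _ _ := s.rnz (i := 19136) g r3_10_3 ⟨by norm_num, c⟩
  have s : St _ β _ _ (598 * 32) _ _ _ _ _ _ _ _ := s.rnz (i := 19136) g r3_10_4 ⟨by norm_num, c⟩
  have s : St _ β _ _ (598 * 32) _ _ _ _ _ _ _ _ := s.rnz (i := 19136) g r3_10_5 ⟨by norm_num, c⟩
  have s : St _ β _ _ (598 * 32) _ _ _ _ _ _ _ _ := s.rnz (i := 19136) g r3_10_6 ⟨by norm_num, c⟩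
  have s : St _ β _ _ (598 * 32) _ _ _ _ _ _ _ _ := s.rnz (i := 19136) g r3_11_0 ⟨by norm_num, c⟩
  have s : St _ β _ _ (598 * 32) _ _ _ _ _ _ _ _ := s.rnz (i := 19136) g r3_11_1 ⟨by norm_num, c⟩
  have s : St _ β _ _ (598 * 32) _ _ _ _ _ _ _ _ := s.rnz (i := 19136) g r3_11_2 ⟨by norm_num, c⟩
  have s : St _ β _ _ (598 * 32) _ _ _ _ _ _ _ _ := s.rnz (i := 19136) g r3_11_3 ⟨by norm_num, c⟩
  have s : St _ β _ _ (598 * 32) _ _ _ _ _ _ _ _ := s.rnz (i := 19136) g r3_11_4 ⟨by norm_num, c⟩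
  have s : St _ β _ _ (598 * 32) _ _ _ _ _ _ _ _ := s.rnz (i := 19136) g r3_11_5 ⟨by norm_num, c⟩
  have s : St _ β _ _ (598 * 32) _ _ _ _ _ _ _ _ := s.rnz (i := 19136) g r3_11_6 ⟨by norm_num, c⟩
  have s : St _ β _ _ (598 * 32) _ _ _ _ _ _ _ _ := s.rnz (i := 19136) g r3_12_0 ⟨by norm_num, c⟩
  exact s.out g (by decide +kernel)

theorem tab10 : tab FA FB D10 R10 8 = true := by decide +kernel

theorem seg10 : Seg ⟨FA, FB, FT, 75135, 10069, 42299, geo_ok⟩ 10069 8999 3200 10070 := fun _ E β ht h hb h' => by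
  letI : Geo := ⟨FA, FB, FT, 75135, 10069, 42299, geo_ok⟩
  have c : rd R10 35 = 8999 := by decide +kernel
  have g := tc_re (E := E) tab10 (ro := 10069) (C0 := 8999) (by decide +kernel) ht hb
  have s : St (E.re tab10) β 8999 H10_0 (0 * 32) _ X10_0 _ _ _ _ _ _ :=
    g.start H10_0 8999 1 (by decide +kernel) h h'
  have s : St _ β _ _ (145 * 32) _ _ _ _ _ _ _ _ := s.ru g okX10_0 p10_0_0
  have s : St _ β _ _ (227 * 32) _ _ _ _ _ _ _ _ := s.ru g okX10_0 p10_1_0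
  have s : St _ β _ _ (293 * 32) _ _ _ _ _ _ _ _ := s.ru g okX10_0 p10_2_0
  have s : St _ β _ _ (356 * 32) _ _ _ _ _ _ _ _ := s.ru g okX10_0 p10_3_0
  have s : St _ β _ _ (412 * 32) _ _ _ _ _ _ _ _ := s.ru g okX10_0 p10_4_0
  have s : St _ β _ _ (473 * 32) _ _ _ _ _ _ _ _ := s.ru g okX10_0 p10_5_0
  have s : St _ β _ _ (520 * 32) _ _ _ _ _ _ _ _ := s.ru g okX10_0 p10_6_0
  have s : St _ β _ _ (559 * 32) _ _ _ _ _ _ _ _ := s.ru g okX10_0 p10_7_0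
  have s : St _ β _ _ (593 * 32) _ _ _ _ _ _ _ _ := s.ru g okX10_0 p10_8_0
  have s : St _ β _ _ (607 * 32) _ _ _ _ _ _ _ _ := s.ru g okX10_0 p10_9_0
  have s : St _ β _ _ (607 * 32) _ _ _ _ _ _ _ _ := s.rnz (i := 19424) g r10_9_6 ⟨by norm_num, c⟩
  have s : St _ β _ _ (607 * 32) _ _ _ _ _ _ _ _ := s.rnz (i := 19424) g r10_9_7 ⟨by norm_num, c⟩
  have s : St _ β _ _ (607 * 32) _ _ _ _ _ _ _ _ := s.rnz (i := 19424) g r10_9_8 ⟨by norm_num, c⟩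
  have s : St _ β _ _ (607 * 32) _ _ _ _ _ _ _ _ := s.rnz (i := 19424) g r10_9_9 ⟨by norm_num, c⟩
  have s : St _ β _ _ (607 * 32) _ _ _ _ _ _ _ _ := s.rnz (i := 19424) g r10_10_0 ⟨by norm_num, c⟩
  have s : St _ β _ _ (607 * 32) _ _ _ _ _ _ _ _ := s.rnz (i := 19424) g r10_10_1 ⟨by norm_num, c⟩
  have s : St _ β _ _ (607 * 32) _ _ _ _ _ _ _ _ := s.rnz (i := 19424) g r10_10_2 ⟨by norm_num, c⟩
  have s : St _ β _ _ (607 * 32) _ _ _ _ _ _ _ _ := s.rnz (i := 19424) g r10_10_3 ⟨by norm_num, c⟩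
  have s : St _ β _ _ (607 * 32) _ _ _ _ _ _ _ _ := s.rnz (i := 19424) g r10_10_4 ⟨by norm_num, c⟩
  have s : St _ β _ _ (607 * 32) _ _ _ _ _ _ _ _ := s.rnz (i := 19424) g r10_10_5 ⟨by norm_num, c⟩
  have s : St _ β _ _ (615 * 32) _ _ _ _ _ _ _ _ := s.ru g okX10_13 p10_10_6
  have s : St _ β _ _ (708 * 32) _ _ _ _ _ _ _ _ := s.ru g okX10_13 p10_11_0
  have s : St _ β _ _ (757 * 32) _ _ _ _ _ _ _ _ := s.ru g okX10_13 p10_12_0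
  have s : St _ β _ _ (794 * 32) _ _ _ _ _ _ _ _ := s.ru g okX10_13 p10_13_0
  have s : St _ β _ _ (835 * 32) _ _ _ _ _ _ _ _ := s.ru g okX10_13 p10_14_0
  have s : St _ β _ _ (877 * 32) _ _ _ _ _ _ _ _ := s.ru g okX10_13 p10_15_0
  have s : St _ β _ _ (913 * 32) _ _ _ _ _ _ _ _ := s.ru g okX10_13 p10_16_0
  have s : St _ β _ _ (944 * 32) _ _ _ _ _ _ _ _ := s.ru g okX10_13 p10_17_0
  have s : St _ β _ _ (960 * 32) _ _ _ _ _ _ _ _ := s.ru g okX10_13 p10_18_0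
  have s : St _ β _ _ (960 * 32) _ _ _ _ _ _ _ _ := s.rnz (i := 30720) g r10_18_6 ⟨by norm_num, c⟩
  have s : St _ β _ _ (960 * 32) _ _ _ _ _ _ _ _ := s.rnz (i := 30720) g r10_18_7 ⟨by norm_num, c⟩
  have s : St _ β _ _ (960 * 32) _ _ _ _ _ _ _ _ := s.rnz (i := 30720) g r10_18_8 ⟨by norm_num, c⟩
  have s : St _ β _ _ (960 * 32) _ _ _ _ _ _ _ _ := s.rnz (i := 30720) g r10_18_9 ⟨by norm_num, c⟩
  have s : St _ β _ _ (960 * 32) _ _ _ _ _ _ _ _ := s.rnz (i := 30720) g r10_19_0 ⟨by norm_num, c⟩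
  have s : St _ β _ _ (960 * 32) _ _ _ _ _ _ _ _ := s.rnz (i := 30720) g r10_19_1 ⟨by norm_num, c⟩
  have s : St _ β _ _ (960 * 32) _ _ _ _ _ _ _ _ := s.rnz (i := 30720) g r10_19_2 ⟨by norm_num, c⟩
  have s : St _ β _ _ (960 * 32) _ _ _ _ _ _ _ _ := s.rnz (i := 30720) g r10_19_3 ⟨by norm_num, c⟩
  have s : St _ β _ _ (960 * 32) _ _ _ _ _ _ _ _ := s.rnz (i := 30720) g r10_19_4 ⟨by norm_num, c⟩
  have s : St _ β _ _ (960 * 32) _ _ _ _ _ _ _ _ := s.rnz (i := 30720) g r10_19_5 ⟨by norm_num, c⟩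
  have s : St _ β _ _ (1052 * 32) _ _ _ _ _ _ _ _ := s.ru g okX10_31 p10_20_0
  have s : St _ β _ _ (1111 * 32) _ _ _ _ _ _ _ _ := s.ru g okX10_31 p10_21_0
  have s : St _ β _ _ (1160 * 32) _ _ _ _ _ _ _ _ := s.ru g okX10_31 p10_22_0
  have s : St _ β _ _ (1209 * 32) _ _ _ _ _ _ _ _ := s.ru g okX10_31 p10_23_0
  have s : St _ β _ _ (1250 * 32) _ _ _ _ _ _ _ _ := s.ru g okX10_31 p10_24_0
  have s : St _ β _ _ (1289 * 32) _ _ _ _ _ _ _ _ := s.ru g okX10_31 p10_25_0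
  have s : St _ β _ _ (1325 * 32) _ _ _ _ _ _ _ _ := s.ru g okX10_31 p10_26_0
  have s : St _ β _ _ (1359 * 32) _ _ _ _ _ _ _ _ := s.ru g okX10_31 p10_27_0
  have s : St _ β _ _ (1363 * 32) _ _ _ _ _ _ _ _ := s.ru g okX10_31 p10_28_0
  have s : St _ β _ _ (1363 * 32) _ _ _ _ _ _ _ _ := s.rnz (i := 43616) g r10_28_1 ⟨by norm_num, c⟩
  have s : St _ β _ _ (1363 * 32) _ _ _ _ _ _ _ _ := s.rnz (i := 43616) g r10_28_2 ⟨by norm_num, c⟩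
  have s : St _ β _ _ (1363 * 32) _ _ _ _ _ _ _ _ := s.rnz (i := 43616) g r10_28_3 ⟨by norm_num, c⟩
  have s : St _ β _ _ (1363 * 32) _ _ _ _ _ _ _ _ := s.rnz (i := 43616) g r10_28_4 ⟨by norm_num, c⟩
  have s : St _ β _ _ (1363 * 32) _ _ _ _ _ _ _ _ := s.rnz (i := 43616) g r10_28_5 ⟨by norm_num, c⟩
  have s : St _ β _ _ (1363 * 32) _ _ _ _ _ _ _ _ := s.rnz (i := 43616) g r10_28_6 ⟨by norm_num, c⟩
  have s : St _ β _ _ (1363 * 32) _ _ _ _ _ _ _ _ := s.rnz (i := 43616) g r10_29_0 ⟨by norm_num, c⟩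
  have s : St _ β _ _ (1363 * 32) _ _ _ _ _ _ _ _ := s.rnz (i := 43616) g r10_29_1 ⟨by norm_num, c⟩
  have s : St _ β _ _ (1363 * 32) _ _ _ _ _ _ _ _ := s.rnz (i := 43616) g r10_29_2 ⟨by norm_num, c⟩
  have s : St _ β _ _ (1363 * 32) _ _ _ _ _ _ _ _ := s.rnz (i := 43616) g r10_29_3 ⟨by norm_num, c⟩
  have s : St _ β _ _ (1363 * 32) _ _ _ _ _ _ _ _ := s.rnz (i := 43616) g r10_29_4 ⟨by norm_num, c⟩
  have s : St _ β _ _ (1363 * 32) _ _ _ _ _ _ _ _ := s.rnz (i := 43616) g r10_29_5 ⟨by norm_num, c⟩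
  have s : St _ β _ _ (1452 * 32) _ _ _ _ _ _ _ _ := s.ru g okX10_49 p10_30_0
  have s : St _ β _ _ (1508 * 32) _ _ _ _ _ _ _ _ := s.ru g okX10_49 p10_31_0
  have s : St _ β _ _ (1563 * 32) _ _ _ _ _ _ _ _ := s.ru g okX10_49 p10_32_0
  have s : St _ β _ _ (1616 * 32) _ _ _ _ _ _ _ _ := s.ru g okX10_49 p10_33_0
  have s : St _ β _ _ (1654 * 32) _ _ _ _ _ _ _ _ := s.ru g okX10_49 p10_34_0
  have s : St _ β _ _ (1694 * 32) _ _ _ _ _ _ _ _ := s.ru g okX10_49 p10_35_0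
  have s : St _ β _ _ (1704 * 32) _ _ _ _ _ _ _ _ := s.ru g okX10_49 p10_36_0
  have s : St _ β _ _ (1704 * 32) _ _ _ _ _ _ _ _ := s.rnz (i := 54528) g r10_36_3 ⟨by norm_num, c⟩
  have s : St _ β _ _ (1704 * 32) _ _ _ _ _ _ _ _ := s.rnz (i := 54528) g r10_36_4 ⟨by norm_num, c⟩
  have s : St _ β _ _ (1704 * 32) _ _ _ _ _ _ _ _ := s.rnz (i := 54528) g r10_36_5 ⟨by norm_num, c⟩
  have s : St _ β _ _ (1704 * 32) _ _ _ _ _ _ _ _ := s.rnz (i := 54528) g r10_36_6 ⟨by norm_num, c⟩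
  have s : St _ β _ _ (1704 * 32) _ _ _ _ _ _ _ _ := s.rnz (i := 54528) g r10_36_7 ⟨by norm_num, c⟩
  have s : St _ β _ _ (1704 * 32) _ _ _ _ _ _ _ _ := s.rnz (i := 54528) g r10_37_0 ⟨by norm_num, c⟩
  have s : St _ β _ _ (1704 * 32) _ _ _ _ _ _ _ _ := s.rnz (i := 54528) g r10_37_1 ⟨by norm_num, c⟩
  have s : St _ β _ _ (1704 * 32) _ _ _ _ _ _ _ _ := s.rnz (i := 54528) g r10_37_2 ⟨by norm_num, c⟩
  have s : St _ β _ _ (1704 * 32) _ _ _ _ _ _ _ _ := s.rnz (i := 54528) g r10_37_3 ⟨by norm_num, c⟩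
  have s : St _ β _ _ (1704 * 32) _ _ _ _ _ _ _ _ := s.rnz (i := 54528) g r10_37_4 ⟨by norm_num, c⟩
  have s : St _ β _ _ (1704 * 32) _ _ _ _ _ _ _ _ := s.rnz (i := 54528) g r10_37_5 ⟨by norm_num, c⟩
  have s : St _ β _ _ (1704 * 32) _ _ _ _ _ _ _ _ := s.rnz (i := 54528) g r10_37_6 ⟨by norm_num, c⟩
  have s : St _ β _ _ (1704 * 32) _ _ _ _ _ _ _ _ := s.rnz (i := 54528) g r10_38_0 ⟨by norm_num, c⟩
  have s : St _ β _ _ (1704 * 32) _ _ _ _ _ _ _ _ := s.rnz (i := 54528) g r10_38_1 ⟨by norm_num, c⟩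
  have s : St _ β _ _ (1704 * 32) _ _ _ _ _ _ _ _ := s.rnz (i := 54528) g r10_38_2 ⟨by norm_num, c⟩
  have s : St _ β _ _ (1704 * 32) _ _ _ _ _ _ _ _ := s.rnz (i := 54528) g r10_38_3 ⟨by norm_num, c⟩
  have s : St _ β _ _ (1744 * 32) _ _ _ _ _ _ _ _ := s.ru g okX10_69 p10_38_4
  have s : St _ β _ _ (1807 * 32) _ _ _ _ _ _ _ _ := s.ru g okX10_69 p10_39_0
  have s : St _ β _ _ (1860 * 32) _ _ _ _ _ _ _ _ := s.ru g okX10_69 p10_40_0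
  have s : St _ β _ _ (1918 * 32) _ _ _ _ _ _ _ _ := s.ru g okX10_69 p10_41_0
  have s : St _ β _ _ (1964 * 32) _ _ _ _ _ _ _ _ := s.ru g okX10_69 p10_42_0
  have s : St _ β _ _ (1981 * 32) _ _ _ _ _ _ _ _ := s.ru g okX10_69 p10_43_0
  have s : St _ β _ _ (1981 * 32) _ _ _ _ _ _ _ _ := s.rnz (i := 63392) g r10_43_6 ⟨by norm_num, c⟩
  have s : St _ β _ _ (1981 * 32) _ _ _ _ _ _ _ _ := s.rnz (i := 63392) g r10_43_7 ⟨by norm_num, c⟩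
  have s : St _ β _ _ (1981 * 32) _ _ _ _ _ _ _ _ := s.rnz (i := 63392) g r10_43_8 ⟨by norm_num, c⟩
  have s : St _ β _ _ (1981 * 32) _ _ _ _ _ _ _ _ := s.rnz (i := 63392) g r10_43_9 ⟨by norm_num, c⟩
  have s : St _ β _ _ (1981 * 32) _ _ _ _ _ _ _ _ := s.rnz (i := 63392) g r10_44_0 ⟨by norm_num, c⟩
  have s : St _ β _ _ (1981 * 32) _ _ _ _ _ _ _ _ := s.rnz (i := 63392) g r10_44_1 ⟨by norm_num, c⟩
  have s : St _ β _ _ (1981 * 32) _ _ _ _ _ _ _ _ := s.rnz (i := 63392) g r10_44_2 ⟨by norm_num, c⟩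
  have s : St _ β _ _ (1981 * 32) _ _ _ _ _ _ _ _ := s.rnz (i := 63392) g r10_44_3 ⟨by norm_num, c⟩
  have s : St _ β _ _ (2025 * 32) _ _ _ _ _ _ _ _ := s.ru g okX10_83 p10_44_4
  have s : St _ β _ _ (2107 * 32) _ _ _ _ _ _ _ _ := s.ru g okX10_83 p10_45_0
  have s : St _ β _ _ (2176 * 32) _ _ _ _ _ _ _ _ := s.ru g okX10_83 p10_46_0
  have s : St _ β _ _ (2229 * 32) _ _ _ _ _ _ _ _ := s.ru g okX10_83 p10_47_0
  have s : St _ β _ _ (2282 * 32) _ _ _ _ _ _ _ _ := s.ru g okX10_83 p10_48_0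
  have s : St _ β _ _ (2286 * 32) _ _ _ _ _ _ _ _ := s.ru g okX10_83 p10_49_0
  have s : St _ β _ _ (2286 * 32) _ _ _ _ _ _ _ _ := s.rnz (i := 73152) g r10_49_2 ⟨by norm_num, c⟩
  have s : St _ β _ _ (2286 * 32) _ _ _ _ _ _ _ _ := s.rnz (i := 73152) g r10_49_3 ⟨by norm_num, c⟩
  have s : St _ β _ _ (2286 * 32) _ _ _ _ _ _ _ _ := s.rnz (i := 73152) g r10_49_4 ⟨by norm_num, c⟩
  have s : St _ β _ _ (2286 * 32) _ _ _ _ _ _ _ _ := s.rnz (i := 73152) g r10_49_5 ⟨by norm_num, c⟩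
  have s : St _ β _ _ (2286 * 32) _ _ _ _ _ _ _ _ := s.rnz (i := 73152) g r10_49_6 ⟨by norm_num, c⟩
  have s : St _ β _ _ (2286 * 32) _ _ _ _ _ _ _ _ := s.rnz (i := 73152) g r10_49_7 ⟨by norm_num, c⟩
  have s : St _ β _ _ (2286 * 32) _ _ _ _ _ _ _ _ := s.rnz (i := 73152) g r10_50_0 ⟨by norm_num, c⟩
  have s : St _ β _ _ (2286 * 32) _ _ _ _ _ _ _ _ := s.rnz (i := 73152) g r10_50_1 ⟨by norm_num, c⟩
  have s : St _ β _ _ (2286 * 32) _ _ _ _ _ _ _ _ := s.rnz (i := 73152) g r10_50_2 ⟨by norm_num, c⟩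
  have s : St _ β _ _ (2286 * 32) _ _ _ _ _ _ _ _ := s.rnz (i := 73152) g r10_50_3 ⟨by norm_num, c⟩
  have s : St _ β _ _ (2286 * 32) _ _ _ _ _ _ _ _ := s.rnz (i := 73152) g r10_50_4 ⟨by norm_num, c⟩
  have s : St _ β _ _ (2286 * 32) _ _ _ _ _ _ _ _ := s.rnz (i := 73152) g r10_50_5 ⟨by norm_num, c⟩
  have s : St _ β _ _ (2287 * 32) _ _ _ _ _ _ _ _ := s.ru g okX10_105 p10_50_6
  have s : St _ β _ _ (2379 * 32) _ _ _ _ _ _ _ _ := s.ru g okX10_105 p10_51_0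
  have s : St _ β _ _ (2418 * 32) _ _ _ _ _ _ _ _ := s.ru g okX10_105 p10_52_0
  have s : St _ β _ _ (2418 * 32) _ _ _ _ _ _ _ _ := s.rnz (i := 77376) g r10_52_9 ⟨by norm_num, c⟩
  have s : St _ β _ _ (2418 * 32) _ _ _ _ _ _ _ _ := s.rnz (i := 77376) g r10_52_10 ⟨by norm_num, c⟩
  have s : St _ β _ _ (2418 * 32) _ _ _ _ _ _ _ _ := s.rnz (i := 77376) g r10_53_0 ⟨by norm_num, c⟩
  have s : St _ β _ _ (2418 * 32) _ _ _ _ _ _ _ _ := s.rnz (i := 77376) g r10_53_1 ⟨by norm_num, c⟩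
  have s : St _ β _ _ (2418 * 32) _ _ _ _ _ _ _ _ := s.rnz (i := 77376) g r10_53_2 ⟨by norm_num, c⟩
  have s : St _ β _ _ (2418 * 32) _ _ _ _ _ _ _ _ := s.rnz (i := 77376) g r10_53_3 ⟨by norm_num, c⟩
  have s : St _ β _ _ (2453 * 32) _ _ _ _ _ _ _ _ := s.ru g okX10_118 p10_53_4
  have s : St _ β _ _ (2523 * 32) _ _ _ _ _ _ _ _ := s.ru g okX10_118 p10_54_0
  have s : St _ β _ _ (2527 * 32) _ _ _ _ _ _ _ _ := s.ru g okX10_118 p10_55_0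
  have s : St _ β _ _ (2527 * 32) _ _ _ _ _ _ _ _ := s.rnz (i := 80864) g r10_55_2 ⟨by norm_num, c⟩
  have s : St _ β _ _ (2527 * 32) _ _ _ _ _ _ _ _ := s.rnz (i := 80864) g r10_55_3 ⟨by norm_num, c⟩
  have s : St _ β _ _ (2527 * 32) _ _ _ _ _ _ _ _ := s.rnz (i := 80864) g r10_55_4 ⟨by norm_num, c⟩
  have s : St _ β _ _ (2527 * 32) _ _ _ _ _ _ _ _ := s.rnz (i := 80864) g r10_55_5 ⟨by norm_num, c⟩
  have s : St _ β _ _ (2527 * 32) _ _ _ _ _ _ _ _ := s.rnz (i := 80864) g r10_55_6 ⟨by norm_num, c⟩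
  have s : St _ β _ _ (2527 * 32) _ _ _ _ _ _ _ _ := s.rnz (i := 80864) g r10_55_7 ⟨by norm_num, c⟩
  have s : St _ β _ _ (2599 * 32) _ _ _ _ _ _ _ _ := s.ru g okX10_131 p10_56_0
  have s : St _ β _ _ (2617 * 32) _ _ _ _ _ _ _ _ := s.ru g okX10_131 p10_57_0
  have s : St _ β _ _ (2617 * 32) _ _ _ _ _ _ _ _ := s.rnz (i := 83744) g r10_57_4 ⟨by norm_num, c⟩
  have s : St _ β _ _ (2617 * 32) _ _ _ _ _ _ _ _ := s.rnz (i := 83744) g r10_57_5 ⟨by norm_num, c⟩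
  have s : St _ β _ _ (2617 * 32) _ _ _ _ _ _ _ _ := s.rnz (i := 83744) g r10_57_6 ⟨by norm_num, c⟩
  have s : St _ β _ _ (2617 * 32) _ _ _ _ _ _ _ _ := s.rnz (i := 83744) g r10_57_7 ⟨by norm_num, c⟩
  have s : St _ β _ _ (2617 * 32) _ _ _ _ _ _ _ _ := s.rnz (i := 83744) g r10_57_8 ⟨by norm_num, c⟩
  have s : St _ β _ _ (2617 * 32) _ _ _ _ _ _ _ _ := s.rnz (i := 83744) g r10_58_0 ⟨by norm_num, c⟩
  have s : St _ β _ _ (2617 * 32) _ _ _ _ _ _ _ _ := s.rnz (i := 83744) g r10_58_1 ⟨by norm_num, c⟩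
  have s : St _ β _ _ (2617 * 32) _ _ _ _ _ _ _ _ := s.rnz (i := 83744) g r10_58_2 ⟨by norm_num, c⟩
  have s : St _ β _ _ (2617 * 32) _ _ _ _ _ _ _ _ := s.rnz (i := 83744) g r10_58_3 ⟨by norm_num, c⟩
  have s : St _ β _ _ (2617 * 32) _ _ _ _ _ _ _ _ := s.rnz (i := 83744) g r10_58_4 ⟨by norm_num, c⟩
  have s : St _ β _ _ (2643 * 32) _ _ _ _ _ _ _ _ := s.ru g okX10_148 p10_58_5
  have s : St _ β _ _ (2669 * 32) _ _ _ _ _ _ _ _ := s.ru g okX10_148 p10_59_0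
  have s : St _ β _ _ (2669 * 32) _ _ _ _ _ _ _ _ := s.rnz (i := 85408) g r10_59_5 ⟨by norm_num, c⟩
  have s : St _ β _ _ (2669 * 32) _ _ _ _ _ _ _ _ := s.rnz (i := 85408) g r10_59_6 ⟨by norm_num, c⟩
  have s : St _ β _ _ (2669 * 32) _ _ _ _ _ _ _ _ := s.rnz (i := 85408) g r10_59_7 ⟨by norm_num, c⟩
  have s : St _ β _ _ (2669 * 32) _ _ _ _ _ _ _ _ := s.rnz (i := 85408) g r10_59_8 ⟨by norm_num, c⟩
  have s : St _ β _ _ (2669 * 32) _ _ _ _ _ _ _ _ := s.rnz (i := 85408) g r10_59_9 ⟨by norm_num, c⟩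
  have s : St _ β _ _ (2669 * 32) _ _ _ _ _ _ _ _ := s.rnz (i := 85408) g r10_60_0 ⟨by norm_num, c⟩
  have s : St _ β _ _ (2689 * 32) _ _ _ _ _ _ _ _ := s.ru g okX10_159 p10_60_1
  have s : St _ β _ _ (2689 * 32) _ _ _ _ _ _ _ _ := s.rnz (i := 86048) g r10_60_4 ⟨by norm_num, c⟩
  have s : St _ β _ _ (2689 * 32) _ _ _ _ _ _ _ _ := s.rnz (i := 86048) g r10_60_5 ⟨by norm_num, c⟩
  have s : St _ β _ _ (2689 * 32) _ _ _ _ _ _ _ _ := s.rnz (i := 86048) g r10_60_6 ⟨by norm_num, c⟩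
  have s : St _ β _ _ (2689 * 32) _ _ _ _ _ _ _ _ := s.rnz (i := 86048) g r10_60_7 ⟨by norm_num, c⟩
  have s : St _ β _ _ (2719 * 32) _ _ _ _ _ _ _ _ := s.ru g okX10_167 p10_61_0
  have s : St _ β _ _ (2719 * 32) _ _ _ _ _ _ _ _ := s.rnz (i := 87008) g r10_61_5 ⟨by norm_num, c⟩
  have s : St _ β _ _ (2719 * 32) _ _ _ _ _ _ _ _ := s.rnz (i := 87008) g r10_61_6 ⟨by norm_num, c⟩
  have s : St _ β _ _ (2719 * 32) _ _ _ _ _ _ _ _ := s.rnz (i := 87008) g r10_61_7 ⟨by norm_num, c⟩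
  have s : St _ β _ _ (2719 * 32) _ _ _ _ _ _ _ _ := s.rnz (i := 87008) g r10_61_8 ⟨by norm_num, c⟩
  have s : St _ β _ _ (2719 * 32) _ _ _ _ _ _ _ _ := s.rnz (i := 87008) g r10_61_9 ⟨by norm_num, c⟩
  have s : St _ β _ _ (2719 * 32) _ _ _ _ _ _ _ _ := s.rnz (i := 87008) g r10_62_0 ⟨by norm_num, c⟩
  have s : St _ β _ _ (2719 * 32) _ _ _ _ _ _ _ _ := s.rnz (i := 87008) g r10_62_1 ⟨by norm_num, c⟩
  have s : St _ β _ _ (2719 * 32) _ _ _ _ _ _ _ _ := s.rnz (i := 87008) g r10_62_2 ⟨by norm_num, c⟩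
  have s : St _ β _ _ (2734 * 32) _ _ _ _ _ _ _ _ := s.ru g okX10_170 p10_62_3
  have s : St _ β _ _ (2734 * 32) _ _ _ _ _ _ _ _ := s.rnz (i := 87488) g r10_62_6 ⟨by norm_num, c⟩
  have s : St _ β _ _ (2734 * 32) _ _ _ _ _ _ _ _ := s.rnz (i := 87488) g r10_62_7 ⟨by norm_num, c⟩
  have s : St _ β _ _ (2734 * 32) _ _ _ _ _ _ _ _ := s.rnz (i := 87488) g r10_63_0 ⟨by norm_num, c⟩
  have s : St _ β _ _ (2741 * 32) _ _ _ _ _ _ _ _ := s.ru g okX10_180 p10_63_1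
  have s : St _ β _ _ (2741 * 32) _ _ _ _ _ _ _ _ := s.rnz (i := 87712) g r10_63_2 ⟨by norm_num, c⟩
  have s : St _ β _ _ (2760 * 32) _ _ _ _ _ _ _ _ := s.ru g okX10_182 p10_63_3
  have s : St _ β _ _ (2760 * 32) _ _ _ _ _ _ _ _ := s.rnz (i := 88320) g r10_63_6 ⟨by norm_num, c⟩
  have s : St _ β _ _ (2760 * 32) _ _ _ _ _ _ _ _ := s.rnz (i := 88320) g r10_63_7 ⟨by norm_num, c⟩
  have s : St _ β _ _ (2760 * 32) _ _ _ _ _ _ _ _ := s.rnz (i := 88320) g r10_63_8 ⟨by norm_num, c⟩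
  have s : St _ β _ _ (2760 * 32) _ _ _ _ _ _ _ _ := s.rnz (i := 88320) g r10_64_0 ⟨by norm_num, c⟩
  have s : St _ β _ _ (2770 * 32) _ _ _ _ _ _ _ _ := s.ru g okX10_187 p10_64_1
  have s : St _ β _ _ (2770 * 32) _ _ _ _ _ _ _ _ := s.rnz (i := 88640) g r10_64_3 ⟨by norm_num, c⟩
  have s : St _ β _ _ (2770 * 32) _ _ _ _ _ _ _ _ := s.rnz (i := 88640) g r10_64_4 ⟨by norm_num, c⟩
  have s : St _ β _ _ (2770 * 32) _ _ _ _ _ _ _ _ := s.rnz (i := 88640) g r10_64_5 ⟨by norm_num, c⟩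
  have s : St _ β _ _ (2774 * 32) _ _ _ _ _ _ _ _ := s.ru g okX10_189 p10_64_6
  have s : St _ β _ _ (2774 * 32) _ _ _ _ _ _ _ _ := s.rnz (i := 88768) g r10_64_7 ⟨by norm_num, c⟩
  have s : St _ β _ _ (2774 * 32) _ _ _ _ _ _ _ _ := s.rnz (i := 88768) g r10_64_8 ⟨by norm_num, c⟩
  have s : St _ β _ _ (2782 * 32) _ _ _ _ _ _ _ _ := s.ru g okX10_195 p10_64_9
  have s : St _ β _ _ (2782 * 32) _ _ _ _ _ _ _ _ := s.rnz (i := 89024) g r10_64_10 ⟨by norm_num, c⟩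
  have s : St _ β _ _ (2782 * 32) _ _ _ _ _ _ _ _ := s.rnz (i := 89024) g r10_65_0 ⟨by norm_num, c⟩
  have s : St _ β _ _ (2782 * 32) _ _ _ _ _ _ _ _ := s.rnz (i := 89024) g r10_65_1 ⟨by norm_num, c⟩
  have s : St _ β _ _ (2782 * 32) _ _ _ _ _ _ _ _ := s.rnz (i := 89024) g r10_65_2 ⟨by norm_num, c⟩
  have s : St _ β _ _ (2787 * 32) _ _ _ _ _ _ _ _ := s.ru g okX10_199 p10_65_3
  have s : St _ β _ _ (2787 * 32) _ _ _ _ _ _ _ _ := s.rnz (i := 89184) g r10_65_4 ⟨by norm_num, c⟩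
  have s : St _ β _ _ (2793 * 32) _ _ _ _ _ _ _ _ := s.ru g okX10_201 p10_65_5
  have s : St _ β _ _ (2793 * 32) _ _ _ _ _ _ _ _ := s.rnz (i := 89376) g r10_65_6 ⟨by norm_num, c⟩
  have s : St _ β _ _ (2793 * 32) _ _ _ _ _ _ _ _ := s.rnz (i := 89376) g r10_66_0 ⟨by norm_num, c⟩
  have s : St _ β _ _ (2796 * 32) _ _ _ _ _ _ _ _ := s.ru g okX10_203 p10_66_1
  have s : St _ β _ _ (2796 * 32) _ _ _ _ _ _ _ _ := s.rnz (i := 89472) g r10_66_2 ⟨by norm_num, c⟩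
  have s : St _ β _ _ (2796 * 32) _ _ _ _ _ _ _ _ := s.rnz (i := 89472) g r10_66_3 ⟨by norm_num, c⟩
  have s : St _ β _ _ (2801 * 32) _ _ _ _ _ _ _ _ := s.ru g okX10_207 p10_66_4
  have s : St _ β _ _ (2801 * 32) _ _ _ _ _ _ _ _ := s.rnz (i := 89632) g r10_66_5 ⟨by norm_num, c⟩
  have s : St _ β _ _ (2801 * 32) _ _ _ _ _ _ _ _ := s.rnz (i := 89632) g r10_66_6 ⟨by norm_num, c⟩
  have s : St _ β _ _ (2801 * 32) _ _ _ _ _ _ _ _ := s.rnz (i := 89632) g r10_66_7 ⟨by norm_num, c⟩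
  have s : St _ β _ _ (2806 * 32) _ _ _ _ _ _ _ _ := s.ru g okX10_210 p10_66_8
  have s : St _ β _ _ (2806 * 32) _ _ _ _ _ _ _ _ := s.rnz (i := 89792) g r10_66_9 ⟨by norm_num, c⟩
  have s : St _ β _ _ (2806 * 32) _ _ _ _ _ _ _ _ := s.rnz (i := 89792) g r10_67_0 ⟨by norm_num, c⟩
  have s : St _ β _ _ (2806 * 32) _ _ _ _ _ _ _ _ := s.rnz (i := 89792) g r10_67_1 ⟨by norm_num, c⟩
  have s : St _ β _ _ (2807 * 32) _ _ _ _ _ _ _ _ := s.ru g okX10_215 p10_67_2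
  have s : St _ β _ _ (2807 * 32) _ _ _ _ _ _ _ _ := s.rnz (i := 89824) g r10_67_3 ⟨by norm_num, c⟩
  have s : St _ β _ _ (2816 * 32) _ _ _ _ _ _ _ _ := s.ru g okX10_215 p10_67_4
  have s : St _ β _ _ (2816 * 32) _ _ _ _ _ _ _ _ := s.rnz (i := 90112) g r10_67_5 ⟨by norm_num, c⟩
  have s : St _ β _ _ (2816 * 32) _ _ _ _ _ _ _ _ := s.rnz (i := 90112) g r10_67_6 ⟨by norm_num, c⟩
  have s : St _ β _ _ (2816 * 32) _ _ _ _ _ _ _ _ := s.rnz (i := 90112) g r10_67_7 ⟨by norm_num, c⟩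
  have s : St _ β _ _ (2816 * 32) _ _ _ _ _ _ _ _ := s.rnz (i := 90112) g r10_67_8 ⟨by norm_num, c⟩
  have s : St _ β _ _ (2816 * 32) _ _ _ _ _ _ _ _ := s.rnz (i := 90112) g r10_68_0 ⟨by norm_num, c⟩
  have s : St _ β _ _ (2816 * 32) _ _ _ _ _ _ _ _ := s.rnz (i := 90112) g r10_68_1 ⟨by norm_num, c⟩
  have s : St _ β _ _ (2816 * 32) _ _ _ _ _ _ _ _ := s.rnz (i := 90112) g r10_68_2 ⟨by norm_num, c⟩
  have s : St _ β _ _ (2816 * 32) _ _ _ _ _ _ _ _ := s.rnz (i := 90112) g r10_69_0 ⟨by norm_num, c⟩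
  have s : St _ β _ _ (2816 * 32) _ _ _ _ _ _ _ _ := s.rnz (i := 90112) g r10_69_1 ⟨by norm_num, c⟩
  have s : St _ β _ _ (2816 * 32) _ _ _ _ _ _ _ _ := s.rnz (i := 90112) g r10_69_2 ⟨by norm_num, c⟩
  exact s.out g (by decide +kernel)

theorem many : Many2 ⟨FA, FB, FT, 75135, 10069, 42299, geo_ok⟩ 10069 8999 :=
  ((seg1.app seg3 (by norm_num)).app seg10 (by norm_num)).many (by norm_num)

end

end Pool.Agent.MP_1037db_co.Q.G
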